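import Pool.Agent.N183.U8.Stm

/-!
# Project GS, statement C: representations of the symplectic Lie algebra
-/

set_option autoImplicit false

namespace Pool.Agent.N67.GSC

open Module Pool.Agent.N183.U8

variable {U R : Type} [AddCommGroup U] [Module ℂ U] [AddCommGroup R] [Module ℂ R]
variable {β : U →ₗ[ℂ] U →ₗ[ℂ] ℂ}

/-- the endomorphism `v ↦ β(a,v) b + β(b,v) a` -/
def n (β : U →ₗ[ℂ] U →ₗ[ℂ] ℂ) (a b : U) : End ℂ U := (β a).smulRight b + (β b).smulRight a

theorem n_apply (a b v : U) : n β a b v = β a v • b + β b v • a := rfl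

theorem n_comm (a b : U) : n β a b = n β b a := add_comm _ _

theorem n_add (a b c : U) : n β a (b + c) = n β a b + n β a c := by
  ext v
  simp only [n_apply, LinearMap.add_apply, map_add, smul_add, add_smul]
  abel

theorem n_add' (a b c : U) : n β (a + b) c = n β a c + n β b c := by
  rw [n_comm, n_add, n_comm c a, n_comm c b]

theorem n_smul (t : ℂ) (a b : U) : n β a (t • b) = t • n β a b := by
  ext v
  simp only [n_apply, LinearMap.smul_apply, map_smul, smul_add, smul_smul, smul_eq_mul]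
  congr 2
  ring

theorem n_smul' (t : ℂ) (a b : U) : n β (t • a) b = t • n β a b := by
  rw [n_comm, n_smul, n_comm]

theorem n_neg (a b : U) : n β a (-b) = -n β a b := by
  have := n_smul (β := β) (-1) a b
  simpa using this

theorem n_sub (a b c : U) : n β a (b - c) = n β a b - n β a c := by
  rw [sub_eq_add_neg, n_add, n_neg, sub_eq_add_neg]

theorem n_zero (a : U) : n β a 0 = 0 := by
  have := n_smul (β := β) 0 a 0
  simpa using this

theorem n_zero' (a : U) : n β 0 a = 0 := by rw [n_comm, n_zero]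

theorem anti (h : ∀ u, β u u = 0) (u v : U) : β u v = -β v u := by
  have h1 := h (u + v)
  simp only [map_add, LinearMap.add_apply, h u, h v, zero_add, add_zero] at h1
  linear_combination h1

theorem skw_n (h : ∀ u, β u u = 0) (a b : U) : Skw β (n β a b) := by
  intro u v
  simp only [n_apply, map_add, map_smul, LinearMap.add_apply, LinearMap.smul_apply, smul_eq_mul]
  rw [anti h u b, anti h u a]
  ring

theorem skw_add {A B : End ℂ U} (hA : Skw β A) (hB : Skw β B) : Skw β (A + B) := by
  intro u v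
  have h1 := hA u v
  have h2 := hB u v
  simp only [LinearMap.add_apply, map_add]
  linear_combination h1 + h2

theorem skw_smul {A : End ℂ U} (t : ℂ) (hA : Skw β A) : Skw β (t • A) := by
  intro u v
  have h1 := hA u v
  simp only [LinearMap.smul_apply, map_smul, smul_eq_mul]
  linear_combination t * h1

theorem skw_neg {A : End ℂ U} (hA : Skw β A) : Skw β (-A) := by
  have := skw_smul (-1) hA
  simpa using this

theorem skw_sub {A B : End ℂ U} (hA : Skw β A) (hB : Skw β B) : Skw β (A - B) := by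
  rw [sub_eq_add_neg]
  exact skw_add hA (skw_neg hB)

theorem skw_br {A B : End ℂ U} (hA : Skw β A) (hB : Skw β B) : Skw β (A * B - B * A) := by
  intro u v
  simp only [LinearMap.sub_apply, Module.End.mul_apply, map_sub]
  have h1 := hA (B u) v
  have h2 := hB u (A v)
  have h3 := hB (A u) v
  have h4 := hA u (B v)
  linear_combination h1 - h2 - h3 + h4

theorem br_n {A : End ℂ U} (hA : Skw β A) (a b : U) :
    A * n β a b - n β a b * A = n β (A a) b + n β a (A b) := by
  ext v
  simp only [LinearMap.sub_apply, LinearMap.add_apply, Module.End.mul_apply, n_apply, map_add,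
    map_smul]
  have h1 : β a (A v) = -β (A a) v := by linear_combination hA a v
  have h2 : β b (A v) = -β (A b) v := by linear_combination hA b v
  rw [h1, h2]
  module

/-- decomposition of skew endomorphisms -/
theorem span_n [FiniteDimensional ℂ U] (h : ∀ u, β u u = 0) (hn : ∀ u, (∀ v, β u v = 0) → u = 0)
    (P : Submodule ℂ (End ℂ U)) (y : U) (hP : ∀ a b, β y a = 0 → β y b = 0 → n β a b ∈ P)
    (C : End ℂ U) (hC : Skw β C) (hy : C y = 0) : C ∈ P := by
  classical
  have hinj : Function.Injective β := by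
    rw [← LinearMap.ker_eq_bot, LinearMap.ker_eq_bot']
    intro u hu
    exact hn u fun v => by rw [hu]; rfl
  have hsurj : Function.Surjective β :=
    (LinearMap.injective_iff_surjective_of_finrank_eq_finrank
      (Subspace.dual_finrank_eq (K := ℂ) (V := U)).symm).1 hinj
  let W : Submodule ℂ U := LinearMap.ker (β y)
  have hCW : ∀ v, C v ∈ W := by
    intro v
    change β y (C v) = 0
    have := hC y v
    rw [hy] at this
    simpa using this
  let C' : U →ₗ[ℂ] W := C.codRestrict W hCW
  let b := Module.finBasis ℂ W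
  have hex : ∀ j, ∃ a : U, β a = (b.coord j).comp C' := fun j => hsurj _
  choose a ha using hex
  have haW : ∀ j, β y (a j) = 0 := by
    intro j
    rw [anti h, ha]
    have : C' y = 0 := by
      apply Subtype.ext
      exact hy
    simp [this]
  have hCv : ∀ v, C v = ∑ j, β (a j) v • (b j : U) := by
    intro v
    have h1 := b.sum_repr (C' v)
    have h2 := congrArg (W.subtype) h1
    rw [map_sum] at h2
    change _ = C v at h2
    rw [← h2]
    refine Finset.sum_congr rfl fun j _ => ?_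
    rw [ha]
    rfl
  have hCv' : ∀ v, C v = ∑ j, β (b j : U) v • a j := by
    intro v
    rw [← sub_eq_zero]
    apply hn
    intro w
    have h1 := hC v w
    rw [map_sub, LinearMap.sub_apply]
    have h2 : β v (C w) = -∑ j, β (b j : U) v * β (a j) w := by
      rw [hCv w, map_sum, ← Finset.sum_neg_distrib]
      refine Finset.sum_congr rfl fun j _ => ?_
      rw [map_smul, smul_eq_mul, anti h v]
      ring
    have h3 : β (∑ j, β (b j : U) v • a j) w = ∑ j, β (b j : U) v * β (a j) w := by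
      rw [map_sum, LinearMap.sum_apply]
      refine Finset.sum_congr rfl fun j _ => ?_
      rw [map_smul, LinearMap.smul_apply, smul_eq_mul]
    rw [h3]
    linear_combination h1 - h2
  have hC2 : C = (1 / 2 : ℂ) • ∑ j, n β (a j) (b j : U) := by
    ext v
    have h1 : (∑ j, n β (a j) (b j : U)) v = C v + C v := by
      rw [LinearMap.sum_apply]
      nth_rewrite 1 [hCv v]
      rw [hCv' v, ← Finset.sum_add_distrib]
      rfl
    rw [LinearMap.smul_apply, h1]
    module
  rw [hC2]
  refine P.smul_mem _ (P.sum_mem fun j _ => hP _ _ (haW j) ?_)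
  exact (b j).2

theorem span_n' [FiniteDimensional ℂ U] (h : ∀ u, β u u = 0) (hn : ∀ u, (∀ v, β u v = 0) → u = 0)
    (P : Submodule ℂ (End ℂ U)) (hP : ∀ a b, n β a b ∈ P)
    (C : End ℂ U) (hC : Skw β C) : C ∈ P :=
  span_n h hn P 0 (fun a b _ _ => hP a b) C hC (map_zero C)

/-- the element of the Lie algebra which maps `x` to `y` -/
noncomputable def Bm (β : U →ₗ[ℂ] U →ₗ[ℂ] ℂ) (x z y : U) : End ℂ U :=
  -n β y z - (1 / 2 * β y x : ℂ) • n β z z

theorem Bm_skw (h : ∀ u, β u u = 0) (x z y : U) : Skw β (Bm β x z y) :=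
  skw_sub (skw_neg (skw_n h _ _)) (skw_smul _ (skw_n h _ _))

theorem Bm_apply (h : ∀ u, β u u = 0) {x z : U} (hxz : β x z = 1) (y : U) :
    Bm β x z y x = y := by
  have hzx : β z x = -1 := by rw [anti h, hxz]
  simp only [Bm, LinearMap.sub_apply, LinearMap.neg_apply, LinearMap.smul_apply, n_apply, hzx]
  module

theorem ideal [FiniteDimensional ℂ U] (h : ∀ u, β u u = 0) (hn : ∀ u, (∀ v, β u v = 0) → u = 0)
    (P : Submodule ℂ (End ℂ U)) (hP : ∀ B A, Skw β B → Skw β A → A ∈ P → B * A - A * B ∈ P)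
    {x z : U} (hxz : β x z = 1) (hx : n β x x ∈ P) (A : End ℂ U) (hA : Skw β A) : A ∈ P := by
  have h1 : ∀ y, n β y x ∈ P := by
    intro y
    have h2 := hP _ _ (Bm_skw h x z y) (skw_n h x x) hx
    rw [br_n (Bm_skw h x z y), Bm_apply h hxz, n_comm x y] at h2
    have h3 := P.smul_mem (1 / 2 : ℂ) h2
    have h4 : (1 / 2 : ℂ) • (n β y x + n β y x) = n β y x := by module
    rwa [h4] at h3
  refine span_n' h hn P (fun y w => ?_) A hA
  have h2 := hP _ _ (Bm_skw h x z w) (skw_n h y x) (h1 y)
  rw [br_n (Bm_skw h x z w), Bm_apply h hxz] at h2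
  have h3 := P.sub_mem h2 (h1 (Bm β x z w y))
  rwa [add_sub_cancel_left] at h3

section rep

variable (β) in
/-- the data of a representation -/
structure Rp (ρ : End ℂ U →ₗ[ℂ] End ℂ R) : Prop where
  alt : ∀ u, β u u = 0
  nd : ∀ u, (∀ v, β u v = 0) → u = 0
  br : ∀ A B, Skw β A → Skw β B → ρ (A * B - B * A) = ρ A * ρ B - ρ B * ρ A

/-- a pair of involutions -/
structure Pr (β : U →ₗ[ℂ] U →ₗ[ℂ] ℂ) (ρ : End ℂ U →ₗ[ℂ] End ℂ R) (D : End ℂ U) (D' : End ℂ R) :
    Prop where
  sq : D * D = 1
  sq' : D' * D' = 1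
  skw : Skw β D
  com : ∀ A, Skw β A → D' * ρ A - ρ A * D' = ρ (D * A - A * D)

variable {ρ : End ℂ U →ₗ[ℂ] End ℂ R} {D : End ℂ U} {D' : End ℂ R}

theorem Pr.neg (hp : Pr β ρ D D') : Pr β ρ (-D) (-D') where
  sq := by rw [neg_mul_neg, hp.sq]
  sq' := by rw [neg_mul_neg, hp.sq']
  skw := skw_neg hp.skw
  com := fun A hA => by
    have h1 := hp.com A hA
    have h2 : -D * A - A * -D = -(D * A - A * D) := by noncomm_ring
    rw [h2, map_neg, ← h1]
    noncomm_ring

theorem Rp.comn (hr : Rp β ρ) {A : End ℂ U} (hA : Skw β A) (a b : U) :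
    ρ A * ρ (n β a b) - ρ (n β a b) * ρ A = ρ (n β (A a) b) + ρ (n β a (A b)) := by
  rw [← hr.br A _ hA (skw_n hr.alt a b), br_n hA, map_add]

theorem Pr.comn (hp : Pr β ρ D D') (hr : Rp β ρ) (a b : U) :
    D' * ρ (n β a b) - ρ (n β a b) * D' = ρ (n β (D a) b) + ρ (n β a (D b)) := by
  rw [hp.com _ (skw_n hr.alt a b), br_n hp.skw, map_add]

/-- step 1 -/
theorem Pr.left (hp : Pr β ρ D D') (hr : Rp β ρ) {x y : U} (hx : D x = x) (hy : D y = y) :
    D' * ρ (n β x y) = ρ (n β x y) ∧ ρ (n β x y) * D' = -ρ (n β x y) := by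
  have h1 := hp.comn hr x y
  rw [hx, hy] at h1
  set N := ρ (n β x y) with hN
  have h2 : D' * N * D' = D' * N * D' := rfl
  have h3 : N - D' * N * D' = D' * N + D' * N := by
    have := congrArg (fun X => D' * X) h1
    simp only [mul_sub, mul_add] at this
    rw [← mul_assoc, hp.sq', one_mul, ← mul_assoc] at this
    exact this
  have h4 : D' * N * D' - N = N * D' + N * D' := by
    have := congrArg (fun X => X * D') h1
    simp only [sub_mul, add_mul] at this
    rw [mul_assoc N D' D', hp.sq', mul_one] at this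
    exact this
  have h5 : D' * N + N * D' = 0 := by
    have h6 : (2 : ℂ) • (D' * N + N * D') = 0 := by
      have h7 : (2 : ℂ) • (D' * N + N * D') = (D' * N + D' * N) + (N * D' + N * D') := by module
      rw [h7, ← h3, ← h4]
      abel
    exact (smul_eq_zero.1 h6).resolve_left two_ne_zero
  have h6 : D' * N = N := by
    have h7 : (2 : ℂ) • (D' * N) = (2 : ℂ) • N := by
      have h8 : (2 : ℂ) • (D' * N) = (D' * N - N * D') + (D' * N + N * D') := by module
      rw [h8, h1, h5]
      module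
    exact smul_right_injective _ (two_ne_zero) h7
  refine ⟨h6, ?_⟩
  rw [h6] at h5
  rw [eq_neg_iff_add_eq_zero, add_comm]
  exact h5

theorem Pr.mul_zero (hp : Pr β ρ D D') (hr : Rp β ρ) {x x' y y' : U} (hx : D x = x)
    (hx' : D x' = x') (hy : D y = y) (hy' : D y' = y') :
    ρ (n β x x') * ρ (n β y y') = 0 := by
  have h1 := (hp.left hr hx hx').2
  have h2 := (hp.left hr hy hy').1
  have h3 : ρ (n β x x') * ρ (n β y y') = -(ρ (n β x x') * ρ (n β y y')) := by
    nth_rewrite 1 [← h2]
    rw [← mul_assoc, h1, neg_mul]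
  have h4 : (2 : ℂ) • (ρ (n β x x') * ρ (n β y y')) = 0 := by
    rw [two_smul]
    nth_rewrite 1 [h3]
    exact neg_add_cancel _
  exact (smul_eq_zero.1 h4).resolve_left two_ne_zero

/-- the plus space is its own orthogonal complement -/
theorem Pr.perp (hp : Pr β ρ D D') (hr : Rp β ρ) {w : U} (hw : ∀ x, D x = x → β w x = 0) :
    D w = w := by
  have h1 : w - D w = 0 := by
    apply hr.nd
    intro v
    have h2 := hw (v + D v) (by
      rw [map_add, ← Module.End.mul_apply, hp.sq, Module.End.one_apply, add_comm])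
    have h3 := hp.skw w v
    rw [map_add] at h2
    rw [map_sub, LinearMap.sub_apply]
    linear_combination h2 - h3
  exact (sub_eq_zero.1 h1).symm

/-- step 2 -/
theorem step2 (hp : Pr β ρ D D') (hr : Rp β ρ) {y : U} (Φ : End ℂ R →ₗ[ℂ] End ℂ R)
    (h1 : ∀ x x', D x = x → D x' = x' → Φ (ρ (n β x x')) = 0)
    (h2 : ∀ A, Skw β A → A y = 0 → ∀ X, Φ X = 0 → Φ (ρ A * X - X * ρ A) = 0)
    {w w' : U} (hw : β w y = 0) (hw' : β w' y = 0) : Φ (ρ (n β w w')) = 0 := by
  have key : ∀ w, β w y = 0 → Φ (ρ (n β w w)) = 0 := by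
    intro w hw
    by_cases hex : ∃ x1, D x1 = x1 ∧ β w x1 ≠ 0
    · obtain ⟨x1, hx1, hwx1⟩ := hex
      have hA : Skw β (n β w w) := skw_n hr.alt w w
      have hAy : n β w w y = 0 := by rw [n_apply, hw]; simp
      have h3 : Φ (ρ (n β w x1)) = 0 := by
        have h4 := h2 _ hA hAy _ (h1 x1 x1 hx1 hx1)
        rw [hr.comn hA] at h4
        have h5 : n β w w x1 = (2 * β w x1) • w := by rw [n_apply]; module
        rw [h5, n_smul', n_smul, n_comm x1 w, ← map_add, ← add_smul, map_smul, map_smul,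
          smul_eq_zero] at h4
        refine h4.resolve_left ?_
        intro h6
        apply hwx1
        linear_combination (1 / 4) * h6
      have h4 := h2 _ hA hAy _ h3
      rw [hr.comn hA] at h4
      have h5 : n β w w x1 = (2 * β w x1) • w := by rw [n_apply]; module
      have h6 : n β w w w = 0 := by rw [n_apply, hr.alt]; simp
      rw [h5, h6, n_zero', n_smul, map_zero, zero_add, map_smul, map_smul, smul_eq_zero] at h4
      refine h4.resolve_left ?_
      intro h7
      apply hwx1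
      linear_combination (1 / 2) * h7
    · push Not at hex
      have := hp.perp hr hex
      exact h1 w w this this
  have h3 := key (w + w') (by rw [map_add, LinearMap.add_apply, hw, hw', add_zero])
  have h4 : n β (w + w') (w + w') = n β w w + n β w' w' + (2 : ℂ) • n β w w' := by
    rw [n_add, n_add', n_add', n_comm w' w]
    module
  rw [h4, map_add, map_add, map_add, map_add, key w hw, key w' hw', map_smul, map_smul, zero_add,
    zero_add, smul_eq_zero] at h3
  exact h3.resolve_left two_ne_zero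

theorem step2a (hp : Pr β ρ D D') (hr : Rp β ρ) {y : U} (hy : D y = y) {w w' : U}
    (hw : β w y = 0) (hw' : β w' y = 0) : ρ (n β w w') * ρ (n β y y) = 0 := by
  refine step2 hp hr (y := y) (LinearMap.mulRight ℂ (ρ (n β y y))) ?_ ?_ hw hw'
  · intro x x' hx hx'
    exact hp.mul_zero hr hx hx' hy hy
  · intro A hA hAy X hX
    simp only [LinearMap.mulRight_apply] at hX ⊢
    have h1 := hr.comn hA y y
    rw [hAy, n_zero, n_zero', map_zero, add_zero, sub_eq_zero] at h1
    rw [sub_mul, mul_assoc, hX, mul_zero, mul_assoc, h1, ← mul_assoc, hX, zero_mul, sub_zero]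

theorem step2b (hp : Pr β ρ D D') (hr : Rp β ρ) {y : U} (hy : D y = y) {w w' : U}
    (hw : β w y = 0) (hw' : β w' y = 0) : ρ (n β y y) * ρ (n β w w') = 0 := by
  refine step2 hp hr (y := y) (LinearMap.mulLeft ℂ (ρ (n β y y))) ?_ ?_ hw hw'
  · intro x x' hx hx'
    exact hp.mul_zero hr hy hy hx hx'
  · intro A hA hAy X hX
    simp only [LinearMap.mulLeft_apply] at hX ⊢
    have h1 := hr.comn hA y y
    rw [hAy, n_zero, n_zero', map_zero, add_zero, sub_eq_zero] at h1
    rw [mul_sub, ← mul_assoc, ← h1, mul_assoc, hX, mul_zero, ← mul_assoc, hX, zero_mul, sub_zero]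

/-- step 3 -/
theorem step3 [FiniteDimensional ℂ U] (hp : Pr β ρ D D') (hr : Rp β ρ) {y : U} (hy : D y = y)
    {C : End ℂ U} (hC : Skw β C) (hCy : C y = 0) : ρ C * ρ (n β y y) = 0 := by
  have h1 : C ∈ LinearMap.ker ((LinearMap.mulRight ℂ (ρ (n β y y))).comp ρ) := by
    refine span_n hr.alt hr.nd _ y ?_ C hC hCy
    intro a b ha hb
    rw [LinearMap.mem_ker, LinearMap.comp_apply, LinearMap.mulRight_apply]
    refine step2a hp hr hy ?_ ?_
    · rw [anti hr.alt, ha, neg_zero]
    · rw [anti hr.alt, hb, neg_zero]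
  rw [LinearMap.mem_ker, LinearMap.comp_apply, LinearMap.mulRight_apply] at h1
  exact h1

/-- step 4 -/
theorem step4 (hr : Rp β ρ) {e z : U} (hez : β e z = 1) :
    ρ (n β e e) * ρ (n β z z) - ρ (n β z z) * ρ (n β e e) = (4 : ℂ) • ρ (n β e z) := by
  rw [hr.comn (skw_n hr.alt e e)]
  have h1 : n β e e z = (2 : ℂ) • e := by rw [n_apply, hez]; module
  rw [h1, n_smul', n_smul, n_comm z e, ← map_add, ← add_smul, map_smul]
  norm_num

theorem step4a (hp : Pr β ρ D D') (hr : Rp β ρ) {e z : U} (he : D e = e) (hez : β e z = 1) :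
    ρ (n β e e) * ρ (n β z z) * ρ (n β e e) = (-4 : ℂ) • ρ (n β e e) := by
  have h1 := step4 hr hez
  have h2 := hp.mul_zero hr he he he he
  have h3 := hr.comn (skw_n hr.alt e e) e z
  have h4 : n β e e z = (2 : ℂ) • e := by rw [n_apply, hez]; module
  have h5 : n β e e e = 0 := by rw [n_apply, hr.alt]; simp
  rw [h4, h5, n_zero', map_zero, zero_add, n_smul, map_smul] at h3
  set E := ρ (n β e e)
  set F := ρ (n β z z)
  set G := ρ (n β e z)
  have h6 : E * (E * F - F * E) - (E * F - F * E) * E = -((2 : ℂ) • (E * F * E)) := by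
    have h7 : E * (E * F - F * E) - (E * F - F * E) * E
        = (E * E) * F - (2 : ℂ) • (E * F * E) + F * (E * E) := by
      simp only [mul_sub, sub_mul, mul_assoc]
      module
    rw [h7, h2]
    simp
  rw [h1, mul_smul_comm, smul_mul_assoc, ← smul_sub, h3] at h6
  have h8 : (2 : ℂ) • (E * F * E) = (2 : ℂ) • ((-4 : ℂ) • E) := by
    rw [← neg_inj, ← h6]
    module
  exact smul_right_injective _ (two_ne_zero) h8

/-- the map of step 5 -/
noncomputable def fm (β : U →ₗ[ℂ] U →ₗ[ℂ] ℂ) (ρ : End ℂ U →ₗ[ℂ] End ℂ R) (e z : U) (m : R) : U →ₗ[ℂ] R where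
  toFun y := ρ (Bm β e z y) m
  map_add' y y' := by
    rw [← LinearMap.add_apply, ← map_add]
    congr 2
    simp only [Bm, n_add', map_add, LinearMap.add_apply]
    module
  map_smul' t y := by
    rw [RingHom.id_apply, ← LinearMap.smul_apply, ← map_smul]
    congr 2
    simp only [Bm, n_smul', map_smul, LinearMap.smul_apply, smul_eq_mul]
    module

theorem fm_apply (e z : U) (m : R) (y : U) : fm β ρ e z m y = ρ (Bm β e z y) m := rfl

/-- the elements for which the map is equivariant -/
def Hs (_β : U →ₗ[ℂ] U →ₗ[ℂ] ℂ) (ρ : End ℂ U →ₗ[ℂ] End ℂ R) (f : U →ₗ[ℂ] R) :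
    Submodule ℂ (End ℂ U) where
  carrier := {A | ∀ y, ρ A (f y) = f (A y)}
  zero_mem' := fun y => by simp
  add_mem' := fun {A B} hA hB y => by
    change ∀ y, ρ A (f y) = f (A y) at hA
    change ∀ y, ρ B (f y) = f (B y) at hB
    rw [map_add, LinearMap.add_apply, LinearMap.add_apply, map_add, hA, hB]
  smul_mem' := fun t A hA y => by
    change ∀ y, ρ A (f y) = f (A y) at hA
    rw [map_smul, LinearMap.smul_apply, LinearMap.smul_apply, map_smul, hA]

theorem mem_Hs {f : U →ₗ[ℂ] R} {A : End ℂ U} : A ∈ Hs β ρ f ↔ ∀ y, ρ A (f y) = f (A y) := Iff.rfl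

theorem Hs_br (hr : Rp β ρ) {f : U →ₗ[ℂ] R} {A B : End ℂ U} (hA : Skw β A) (hB : Skw β B)
    (h1 : A ∈ Hs β ρ f) (h2 : B ∈ Hs β ρ f) : A * B - B * A ∈ Hs β ρ f := by
  rw [mem_Hs] at *
  intro y
  rw [hr.br A B hA hB, LinearMap.sub_apply, Module.End.mul_apply, Module.End.mul_apply, h2, h1, h1,
    h2, LinearMap.sub_apply, map_sub, Module.End.mul_apply, Module.End.mul_apply]

theorem step5 [FiniteDimensional ℂ U] (hp : Pr β ρ D D') (hr : Rp β ρ) {e z : U} (he : D e = e)
    (hz : D z = -z) (hez : β e z = 1) (v : R) (A : End ℂ U) (hA : Skw β A) :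
    A ∈ Hs β ρ (fm β ρ e z (ρ (n β e e) v)) := by
  have hze : β z e = -1 := by rw [anti hr.alt, hez]
  have hz' : (-D) z = z := by rw [LinearMap.neg_apply, hz, neg_neg]
  set m := ρ (n β e e) v with hm
  -- `ρ C m = 0`
  have hC0 : ∀ C : End ℂ U, Skw β C → C e = 0 → ρ C m = 0 := by
    intro C hC hCe
    rw [hm, ← Module.End.mul_apply, step3 hp hr he hC hCe, LinearMap.zero_apply]
  -- (5a)
  have h5a : ∀ C : End ℂ U, Skw β C → C e = 0 → C ∈ Hs β ρ (fm β ρ e z m) := by
    intro C hC hCe
    rw [mem_Hs]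
    intro y
    rw [fm_apply, fm_apply]
    have hB := Bm_skw (β := β) hr.alt e z y
    have h1 : ρ C (ρ (Bm β e z y) m) = ρ (C * Bm β e z y - Bm β e z y * C) m := by
      rw [hr.br _ _ hC hB, LinearMap.sub_apply, Module.End.mul_apply, Module.End.mul_apply,
        hC0 C hC hCe, map_zero, sub_zero]
    rw [h1, ← sub_eq_zero, ← LinearMap.sub_apply, ← map_sub]
    apply hC0
    · exact skw_sub (skw_br hC hB) (Bm_skw hr.alt _ _ _)
    · rw [LinearMap.sub_apply, LinearMap.sub_apply, Module.End.mul_apply, Module.End.mul_apply,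
        Bm_apply hr.alt hez, Bm_apply hr.alt hez, hCe, map_zero, sub_zero, sub_self]
  -- (5b)
  have hFF : ρ (n β z z) * ρ (n β z z) = 0 := hp.neg.mul_zero hr hz' hz' hz' hz'
  have hFEF : ρ (n β z z) * ρ (n β e e) * ρ (n β z z) = (-4 : ℂ) • ρ (n β z z) := by
    have h1 := step4a hp.neg hr (e := z) (z := -e) hz' (by rw [map_neg, hze, neg_neg])
    have h2 : n β (-e) (-e) = n β e e := by rw [n_neg, n_comm, n_neg, neg_neg]
    rwa [h2] at h1
  have h5b : n β z z ∈ Hs β ρ (fm β ρ e z m) := by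
    rw [mem_Hs]
    intro y
    have h1 : n β z z y = (2 * β z y) • z := by rw [n_apply]; module
    have h2 : fm β ρ e z m z = -(1 / 2 : ℂ) • ρ (n β z z) m := by
      rw [fm_apply]
      have h3 : Bm β e z z = -(1 / 2 : ℂ) • n β z z := by
        rw [Bm, hze]
        module
      rw [h3, map_smul, LinearMap.smul_apply]
    rw [h1, map_smul, h2, fm_apply]
    have h4 : ρ (n β z z) * ρ (Bm β e z y) = -(ρ (n β z z) * ρ (n β y z)) := by
      rw [Bm, map_sub, map_neg, map_smul, mul_sub, mul_smul_comm, hFF, smul_zero, sub_zero,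
        mul_neg]
    rw [← Module.End.mul_apply, h4]
    have h5 : y = β y z • e + (y - β y z • e) := by abel
    have h6 : n β y z = β y z • n β e z + n β (y - β y z • e) z := by
      nth_rewrite 1 [h5]
      rw [n_add', n_smul']
    have h7 : ρ (n β z z) * ρ (n β (y - β y z • e) z) = 0 := by
      refine step2b hp.neg hr hz' ?_ (hr.alt z)
      rw [map_sub, LinearMap.sub_apply, map_smul, LinearMap.smul_apply, hez, smul_eq_mul, mul_one,
        sub_self]
    have h8 : ρ (n β z z) * ρ (n β e z) = -ρ (n β z z) + (1 / 4 : ℂ) • (-(ρ (n β z z) *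
        ρ (n β z z) * ρ (n β e e))) := by
      have h9 := step4 hr hez
      have h10 : ρ (n β e z) = (1 / 4 : ℂ) • (ρ (n β e e) * ρ (n β z z)
          - ρ (n β z z) * ρ (n β e e)) := by
        rw [h9]
        module
      rw [h10, mul_smul_comm, mul_sub, ← mul_assoc, ← mul_assoc, hFEF]
      module
    rw [h6, map_add, map_smul, mul_add, mul_smul_comm, h7, add_zero, h8, hFF, zero_mul, neg_zero,
      smul_zero, add_zero, LinearMap.neg_apply, LinearMap.smul_apply, LinearMap.neg_apply,
      anti hr.alt z y]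
    module
  -- (5c)
  have hee : β e e = 0 := hr.alt e
  have hn0 : ∀ a b, β a e = 0 → β b e = 0 → n β a b ∈ Hs β ρ (fm β ρ e z m) := by
    intro a b ha hb
    refine h5a _ (skw_n hr.alt a b) ?_
    rw [n_apply, ha, hb]
    simp
  have hbz : ∀ a b, β a e = 0 → β b e = 0 →
      (2 * β z a) • n β z b + (2 * β z b) • n β a z ∈ Hs β ρ (fm β ρ e z m) := by
    intro a b ha hb
    have h1 := Hs_br hr (skw_n hr.alt z z) (skw_n hr.alt a b) h5b (hn0 a b ha hb)
    rw [br_n (skw_n hr.alt z z)] at h1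
    have h2 : ∀ y, n β z z y = (2 * β z y) • z := fun y => by rw [n_apply]; module
    rwa [h2, h2, n_smul', n_smul] at h1
  have hnze : n β z e ∈ Hs β ρ (fm β ρ e z m) := by
    have h1 := hbz e e hee hee
    rw [hze, n_comm e z] at h1
    have h2 := (Hs β ρ (fm β ρ e z m)).smul_mem (-1 / 4 : ℂ) h1
    have h3 : (-1 / 4 : ℂ) • ((2 * (-1 : ℂ)) • n β z e + (2 * (-1 : ℂ)) • n β z e) = n β z e := by
      module
    rwa [h3] at h2
  have hnzb : ∀ b, β b e = 0 → n β z b ∈ Hs β ρ (fm β ρ e z m) := by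
    intro b hb
    have h0 : β z (b - β b z • e) = 0 := by
      rw [map_sub, map_smul, hze, anti hr.alt z b, smul_eq_mul]
      ring
    have h1 := hbz e (b - β b z • e) hee (by
      rw [map_sub, LinearMap.sub_apply, map_smul, LinearMap.smul_apply, hee, hb, smul_zero,
        sub_zero])
    rw [hze, h0] at h1
    have h2 := (Hs β ρ (fm β ρ e z m)).smul_mem (-1 / 2 : ℂ) h1
    have h3 := (Hs β ρ (fm β ρ e z m)).add_mem h2
      ((Hs β ρ (fm β ρ e z m)).smul_mem (β b z) hnze)
    have h4 : (-1 / 2 : ℂ) • ((2 * (-1 : ℂ)) • n β z (b - β b z • e) + (2 * (0 : ℂ)) • n β e z)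
        + β b z • n β z e = n β z b := by
      rw [n_sub, n_smul]
      module
    rwa [h4] at h3
  have hzz : ∀ a, n β z a ∈ Hs β ρ (fm β ρ e z m) := by
    intro a
    have h1 : a = β e a • z + (a - β e a • z) := by abel
    rw [h1, n_add, n_smul]
    refine Submodule.add_mem _ (Submodule.smul_mem _ _ h5b) (hnzb _ ?_)
    rw [map_sub, LinearMap.sub_apply, map_smul, LinearMap.smul_apply, hze, anti hr.alt a e,
      smul_eq_mul]
    ring
  refine span_n' hr.alt hr.nd _ ?_ A hA
  intro a b
  have ha : a = β e a • z + (a - β e a • z) := by abel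
  have hb : b = β e b • z + (b - β e b • z) := by abel
  have ha' : β (a - β e a • z) e = 0 := by
    rw [map_sub, LinearMap.sub_apply, map_smul, LinearMap.smul_apply, hze, anti hr.alt a e,
      smul_eq_mul]
    ring
  have hb' : β (b - β e b • z) e = 0 := by
    rw [map_sub, LinearMap.sub_apply, map_smul, LinearMap.smul_apply, hze, anti hr.alt b e,
      smul_eq_mul]
    ring
  have h1 : n β a b = β e a • n β z b + (β e b • n β z (a - β e a • z)
      + n β (a - β e a • z) (b - β e b • z)) := by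
    have h2 : n β a b = n β (β e a • z + (a - β e a • z)) b := by rw [← ha]
    have h3 : n β (a - β e a • z) b
        = n β (a - β e a • z) (β e b • z + (b - β e b • z)) := by rw [← hb]
    rw [h2, n_add', n_smul', h3, n_add, n_smul, n_comm (a - β e a • z) z]
  rw [h1]
  exact Submodule.add_mem _ (Submodule.smul_mem _ _ (hzz b)) (Submodule.add_mem _
    (Submodule.smul_mem _ _ (hzz _)) (hn0 _ _ ha' hb'))

/-- existence of hyperbolic pairs -/
theorem exists_pair (hp : Pr β ρ D D') (hr : Rp β ρ) {u : U} (hu : u ≠ 0) :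
    ∃ e z, D e = e ∧ D z = -z ∧ β e z = 1 := by
  obtain ⟨v, hv⟩ : ∃ v, β u v ≠ 0 := by
    by_contra hcon
    push Not at hcon
    exact hu (hr.nd u hcon)
  have hDD : ∀ w, D (D w) = w := fun w => by
    rw [← Module.End.mul_apply, hp.sq, Module.End.one_apply]
  -- the components
  have hplus : ∀ w, D (w + D w) = w + D w := fun w => by rw [map_add, hDD, add_comm]
  have hminus : ∀ w, D (w - D w) = -(w - D w) := fun w => by rw [map_sub, hDD, neg_sub]
  have key : ∀ a b, β (a + D a) (b - D b) ≠ 0 → ∃ e z, D e = e ∧ D z = -z ∧ β e z = 1 := by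
    intro a b hab
    refine ⟨a + D a, (β (a + D a) (b - D b))⁻¹ • (b - D b), hplus a, ?_, ?_⟩
    · rw [map_smul, hminus, smul_neg]
    · rw [map_smul, smul_eq_mul, inv_mul_cancel₀ hab]
  by_cases h1 : β (u + D u) (v - D v) ≠ 0
  · exact key u v h1
  by_cases h2 : β (v + D v) (u - D u) ≠ 0
  · exact key v u h2
  exfalso
  push Not at h1 h2
  apply hv
  have h3 := hp.skw u v
  have h4 := hp.skw u (D v)
  rw [hDD] at h4
  have h5 := anti hr.alt v u
  have h6 := anti hr.alt v (D u)
  have h7 := anti hr.alt (D v) u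
  have h8 := anti hr.alt (D v) (D u)
  simp only [map_add, map_sub, LinearMap.add_apply] at h1 h2
  rw [h5, h6, h7, h8] at h2
  linear_combination (1 / 4) * h1 - (1 / 4) * h2 + (1 / 4) * h4 + (1 / 4) * h4 + 0 * h3

/-- step 6 -/
theorem step6 [FiniteDimensional ℂ U] (hp : Pr β ρ D D') (hr : Rp β ρ) {u : U} (hu : u ≠ 0)
    (A : End ℂ U) (hA : Skw β A) : (D' - ρ D) * ρ A = 0 := by
  obtain ⟨x, z, hx, hz, hxz⟩ := exists_pair hp hr hu
  have hcom : ∀ A, Skw β A → (D' - ρ D) * ρ A = ρ A * (D' - ρ D) := by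
    intro A hA
    have h1 := hp.com A hA
    rw [hr.br _ _ hp.skw hA] at h1
    rw [← sub_eq_zero]
    have h2 : (D' - ρ D) * ρ A - ρ A * (D' - ρ D)
        = (D' * ρ A - ρ A * D') - (ρ D * ρ A - ρ A * ρ D) := by noncomm_ring
    rw [h2, h1, sub_self]
  have h1 : A ∈ LinearMap.ker ((LinearMap.mulLeft ℂ (D' - ρ D)).comp ρ) := by
    refine ideal hr.alt hr.nd _ ?_ hxz ?_ A hA
    · intro B A hB hA h1
      rw [LinearMap.mem_ker, LinearMap.comp_apply, LinearMap.mulLeft_apply] at h1 ⊢
      rw [hr.br _ _ hB hA, mul_sub, ← mul_assoc, ← mul_assoc, h1, zero_mul, sub_zero, hcom B hB,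
        mul_assoc, h1, mul_zero]
    · rw [LinearMap.mem_ker, LinearMap.comp_apply, LinearMap.mulLeft_apply, sub_mul,
        (hp.left hr hx hx).1, sub_eq_zero]
      have hC : Skw β (D + n β x z) := skw_add hp.skw (skw_n hr.alt x z)
      have hCx : (D + n β x z) x = 0 := by
        rw [LinearMap.add_apply, hx, n_apply, hr.alt, anti hr.alt z x, hxz]
        module
      have h2 := step3 hp hr hx hC hCx
      rw [map_add, add_mul] at h2
      have h3 : ρ (n β x z) * ρ (n β x x) = -ρ (n β x x) := by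
        have h4 := step4 hr hxz
        have h5 : ρ (n β x z) = (1 / 4 : ℂ) • (ρ (n β x x) * ρ (n β z z)
            - ρ (n β z z) * ρ (n β x x)) := by
          rw [h4]
          module
        rw [h5, smul_mul_assoc, sub_mul, step4a hp hr hx hxz, mul_assoc (ρ (n β z z)),
          hp.mul_zero hr hx hx hx hx, mul_zero]
        module
      rw [h3, add_neg_eq_zero] at h2
      exact h2.symm
  rw [LinearMap.mem_ker, LinearMap.comp_apply, LinearMap.mulLeft_apply] at h1
  exact h1

end rep

/-- Statement C of project GS. -/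
theorem C : S_C := by
  intro U R _ _ _ _ _ _ β ρ T halt hnd hbr hT hTp hf A hA
  have hr : Rp β ρ := ⟨halt, hnd, hbr⟩
  by_cases hU : ∃ u : U, u ≠ 0
  swap
  · push Not at hU
    have h0 : A = 0 := by
      ext u
      exact hU _
    rw [h0, map_zero]
  obtain ⟨u, hu⟩ := hU
  have hPr : ∀ p ∈ T, Pr β ρ p.1 p.2 := fun p hp =>
    ⟨(hTp p hp).1, (hTp p hp).2.1, (hTp p hp).2.2.1, (hTp p hp).2.2.2⟩
  obtain ⟨p0, hp0⟩ := hT
  obtain ⟨e, z, he, hz, hez⟩ := exists_pair (hPr p0 hp0) hr hu
  have hE : ρ (n β e e) = 0 := by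
    ext v
    have h1 := step5 (hPr p0 hp0) hr he hz hez v
    have h2 := hf (fm β ρ e z (ρ (n β e e) v)) (by
      intro p hp y
      have h3 := (mem_Hs.1 (h1 p.1 (hPr p hp).skw)) y
      rw [← h3, fm_apply]
      have h4 := step6 (hPr p hp) hr hu (Bm β e z y) (Bm_skw halt e z y)
      rw [sub_mul, sub_eq_zero] at h4
      rw [← Module.End.mul_apply, ← Module.End.mul_apply (f := p.2), h4])
    have h3 : fm β ρ e z (ρ (n β e e) v) e = ρ (n β e e) v := by
      rw [fm_apply]
      have h4 : Bm β e z e = -n β e z := by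
        rw [Bm, halt, mul_zero, zero_smul, sub_zero]
      rw [h4, map_neg]
      have h5 : ρ (n β e z) * ρ (n β e e) = -ρ (n β e e) := by
        have h6 := step4 hr hez
        have h7 : ρ (n β e z) = (1 / 4 : ℂ) • (ρ (n β e e) * ρ (n β z z)
            - ρ (n β z z) * ρ (n β e e)) := by
          rw [h6]
          module
        rw [h7, smul_mul_assoc, sub_mul, step4a (hPr p0 hp0) hr he hez,
          mul_assoc (ρ (n β z z)), (hPr p0 hp0).mul_zero hr he he he he, mul_zero]
        module
      rw [LinearMap.neg_apply, ← Module.End.mul_apply, h5, LinearMap.neg_apply, neg_neg]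
    rw [h2] at h3
    rw [LinearMap.zero_apply, ← h3, LinearMap.zero_apply]
  have h1 : A ∈ LinearMap.ker ρ := by
    refine ideal halt hnd _ ?_ hez (by rw [LinearMap.mem_ker]; exact hE) A hA
    intro B A hB hA h1
    rw [LinearMap.mem_ker] at h1 ⊢
    rw [hbr _ _ hB hA, h1, mul_zero, zero_mul, sub_zero]
  exact LinearMap.mem_ker.1 h1

end Pool.Agent.N67.GSC
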